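import Pool.Agent.N328.CD.Defs

/-!
Project CD (helper328), part CNT: few cycles, few vertices on short cycles.
-/

set_option autoImplicit false

namespace Pool.Agent.N364.CD
open Finset Pool.Agent.H160R2.HF Pool.Agent.N328.LF Pool.Agent.N328.CD
open Pool.Agent.H185C (Near Conn IsPerm)

section aux

theorem mem_circ {V : Type} [Fintype V] (π : Equiv.Perm V) (x y : V) :
    y ∈ circ π x ↔ π.SameCycle x y := by
  classical
  unfold circ
  simp

theorem circ_eq {V : Type} [Fintype V] {π : Equiv.Perm V} {x y : V} (h : π.SameCycle x y) :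
    circ π x = circ π y := by
  ext z
  rw [mem_circ, mem_circ]
  exact ⟨fun hz => h.symm.trans hz, fun hz => h.trans hz⟩

theorem circ_pos {V : Type} [Fintype V] (π : Equiv.Perm V) (x : V) : 1 ≤ (circ π x).card :=
  Finset.card_pos.2 ⟨x, (mem_circ π x x).2 (Equiv.Perm.SameCycle.refl _ _)⟩

/-- The number of cycles. -/
theorem image_le {V : Type} [Fintype V] [DecidableEq V] (π : Equiv.Perm V) :
    ((univ.image (circ π)).card : ℝ) ≤ ∑ x, (1 : ℝ) / (circ π x).card := by
  rw [← Finset.sum_fiberwise_of_maps_to (s := univ) (t := univ.image (circ π)) (g := circ π)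
    (fun x _ => mem_image_of_mem _ (mem_univ _))]
  rw [Finset.card_eq_sum_ones]
  push_cast
  refine Finset.sum_le_sum fun c hc => ?_
  obtain ⟨y, -, rfl⟩ := mem_image.1 hc
  have hsub : circ π y ⊆ univ.filter (fun x => circ π x = circ π y) := by
    intro x hx
    rw [mem_filter]
    exact ⟨mem_univ _, (circ_eq ((mem_circ π y x).1 hx)).symm⟩
  have h1 : (0 : ℝ) < (circ π y).card := by exact_mod_cast circ_pos π y
  have h2 : ((circ π y).card : ℝ) ≤ (univ.filter (fun x => circ π x = circ π y)).card := by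
    exact_mod_cast Finset.card_le_card hsub
  calc (1 : ℝ) = (circ π y).card * (1 / (circ π y).card) := by field_simp
    _ ≤ (univ.filter (fun x => circ π x = circ π y)).card * (1 / (circ π y).card) := by gcongr
    _ = ∑ x ∈ univ.filter (fun x => circ π x = circ π y), (1 : ℝ) / (circ π x).card := by
        rw [Finset.sum_congr rfl (g := fun _ => (1 : ℝ) / (circ π y).card)
          (fun x hx => by rw [(mem_filter.1 hx).2])]
        rw [Finset.sum_const, nsmul_eq_mul]

/-- Sums over a finite probability space. -/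
theorem sum_le {Ω : Type} [Fintype Ω] (f : Ω → ℕ) (N L T : ℕ) (hN : 0 < N)
    (hL : ∀ k < L, 2 * k ≤ N) (hf : ∀ p, 1 ≤ f p)
    (hc : ∀ k, (univ.filter (fun p => f p = k)).card * (N - k) ≤ T) (g : ℕ → ℝ)
    (hg : ∀ k, 0 ≤ g k) :
    ∑ p, (if f p < L then g (f p) else 0) ≤ 2 / N * T * ∑ k ∈ Ico 1 L, g k := by
  classical
  have hN' : (0 : ℝ) < N := by exact_mod_cast hN
  rw [← Finset.sum_filter]
  rw [← Finset.sum_fiberwise_of_maps_to (t := Ico 1 L) (g := f)
    (fun p hp => Finset.mem_Ico.2 ⟨hf p, (mem_filter.1 hp).2⟩)]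
  rw [Finset.mul_sum]
  refine Finset.sum_le_sum fun k hk => ?_
  have hkL := (Finset.mem_Ico.1 hk).2
  have h1 : ∑ p ∈ (univ.filter (fun p => f p < L)).filter (fun p => f p = k), g (f p)
      = ((univ.filter (fun p => f p < L)).filter (fun p => f p = k)).card * g k := by
    rw [Finset.sum_congr rfl (g := fun _ => g k) (fun p hp => by rw [(mem_filter.1 hp).2])]
    rw [Finset.sum_const, nsmul_eq_mul]
  rw [h1]
  refine mul_le_mul_of_nonneg_right ?_ (hg k)
  have h2 : (((univ.filter (fun p => f p < L)).filter (fun p => f p = k)).card : ℝ)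
      ≤ (univ.filter (fun p => f p = k)).card := by
    have : (univ.filter (fun p => f p < L)).filter (fun p => f p = k)
        ⊆ univ.filter (fun p => f p = k) := by
      intro p hp
      rw [mem_filter] at hp ⊢
      exact ⟨mem_univ _, hp.2⟩
    exact_mod_cast Finset.card_le_card this
  refine h2.trans ?_
  have h3 : (univ.filter (fun p => f p = k)).card * N ≤ 2 * T := by
    have h4 := hc k
    have h5 : N ≤ 2 * (N - k) := by
      have := hL k hkL
      omega
    calc (univ.filter (fun p => f p = k)).card * N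
        ≤ (univ.filter (fun p => f p = k)).card * (2 * (N - k)) := Nat.mul_le_mul_left _ h5
      _ = 2 * ((univ.filter (fun p => f p = k)).card * (N - k)) := by ring
      _ ≤ 2 * T := Nat.mul_le_mul_left _ h4
  have h6 : ((univ.filter (fun p => f p = k)).card : ℝ) * N ≤ 2 * T := by exact_mod_cast h3
  have h7 : 2 / (N : ℝ) * T = (2 * T) / N := by ring
  rw [h7, le_div_iff₀ hN']
  exact h6

/-- Markov. -/
theorem markov {Ω : Type} [Fintype Ω] (X : Ω → ℝ) (hX : ∀ p, 0 ≤ X p) (a S : ℝ) (ha : 0 < a)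
    (hS : ∑ p, X p ≤ S) : ({p | a < X p}.ncard : ℝ) ≤ S / a := by
  classical
  rw [le_div_iff₀ ha]
  have h0 : {p | a < X p}.ncard = (univ.filter (fun p => a < X p)).card := by
    rw [Set.ncard_eq_toFinset_card']
    congr 1
    ext p
    simp
  rw [h0]
  calc ((univ.filter (fun p => a < X p)).card : ℝ) * a
      = ∑ p ∈ univ.filter (fun p => a < X p), a := by rw [Finset.sum_const, nsmul_eq_mul]
    _ ≤ ∑ p ∈ univ.filter (fun p => a < X p), X p :=
        Finset.sum_le_sum fun p hp => (mem_filter.1 hp).2.le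
    _ ≤ ∑ p, X p := Finset.sum_le_sum_of_subset_of_nonneg (filter_subset _ _) fun p _ _ => hX p
    _ ≤ S := hS

theorem harm (L N : ℕ) (h : L ≤ N + 1) : ∑ k ∈ Ico 1 L, (1 : ℝ) / k ≤ 1 + Real.log N := by
  calc ∑ k ∈ Ico 1 L, (1 : ℝ) / k ≤ ∑ k ∈ Ico 1 (N + 1), (1 : ℝ) / k := by
        refine Finset.sum_le_sum_of_subset_of_nonneg ?_ fun k _ _ => by positivity
        exact Finset.Ico_subset_Ico_right h
    _ = harmonic N := by
        rw [Finset.sum_Ico_eq_sum_range]
        simp only [harmonic, Nat.add_sub_cancel]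
        push_cast
        refine Finset.sum_congr rfl fun i _ => ?_
        rw [one_div, add_comm]
    _ ≤ _ := harmonic_le_one_add_log N

end aux

section det
variable {V E : Type} [Fintype V] [Fintype E] [DecidableEq V] [DecidableEq E]

/-- CD/CNT: few cycles, few vertices on short cycles. -/
theorem cnt
    (hret : ∀ (B : OrGraph V E) (F : Finset E) (s : Equiv.Perm V) (ε : V → E),
      IsPerm B F s ε → ∀ (N : ℕ) (x : V × Fin N) (k : ℕ),
      {p : E → Equiv.Perm (Fin N) | (circ (lperm B s ε p) x).card = k}.ncard * (N - k) ≤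
        N.factorial ^ Fintype.card E)
    (B : OrGraph V E) (F : Finset E) (s : Equiv.Perm V) (ε : V → E) (hs : IsPerm B F s ε)
    (A : ℝ) (hA : 0 < A) :
    ∃ C : ℝ, ∀ N : ℕ, 1 ≤ N →
      (({p : E → Equiv.Perm (Fin N) |
        (2 * Fintype.card V + 1 : ℝ) * (N : ℝ) ^ (1 / 8 : ℝ) < ncyc B s ε p ∨
        ∃ ℓ : ℕ, (ℓ : ℝ) ≤ A * (N : ℝ) ^ (1 / 8 : ℝ) ∧
          (N : ℝ) ^ (1 / 4 : ℝ) < (shortV B s ε p ℓ).card}.ncard : ℕ) : ℝ) ≤
        C * (N : ℝ) ^ (-(1 / 10) : ℝ) * ((N.factorial : ℝ) ^ Fintype.card E) := by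
  classical
  obtain ⟨n, hn⟩ : ∃ n : ℕ, n = Fintype.card V := ⟨_, rfl⟩
  obtain ⟨m, hm⟩ : ∃ m : ℕ, m = Fintype.card E := ⟨_, rfl⟩
  obtain ⟨N₀, hN₀⟩ := exists_nat_ge (max 256 ((2 * A) ^ 2))
  have hN₀1 : (256 : ℝ) ≤ N₀ := (le_max_left _ _).trans hN₀
  have hN₀2 : (2 * A) ^ 2 ≤ (N₀ : ℝ) := (le_max_right _ _).trans hN₀
  refine ⟨82 + 2 * n * A + (N₀ : ℝ) ^ (1 / 10 : ℝ), fun N hN => ?_⟩
  rw [← hm, ← hn]
  obtain ⟨r, hr⟩ : ∃ r : ℝ, r = (N : ℝ) := ⟨_, rfl⟩
  have hr1 : 1 ≤ r := by rw [hr]; exact_mod_cast hN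
  have hr0 : 0 < r := by linarith
  obtain ⟨T, hT⟩ : ∃ T : ℕ, T = N.factorial ^ m := ⟨_, rfl⟩
  have hTr : ((N.factorial : ℝ) ^ m) = (T : ℝ) := by rw [hT]; push_cast; rfl
  have hT0 : (0 : ℝ) ≤ T := Nat.cast_nonneg _
  rw [hTr, ← hr]
  have hΩ : Fintype.card (E → Equiv.Perm (Fin N)) = T := by
    rw [Fintype.card_fun, Fintype.card_perm, Fintype.card_fin, hT, hm]
  have hp10 : 0 < r ^ (-(1 / 10) : ℝ) := Real.rpow_pos_of_pos hr0 _
  by_cases hNN : N < N₀
  · -- small N
    have h1 : (({p : E → Equiv.Perm (Fin N) |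
        (2 * n + 1 : ℝ) * r ^ (1 / 8 : ℝ) < ncyc B s ε p ∨
        ∃ ℓ : ℕ, (ℓ : ℝ) ≤ A * r ^ (1 / 8 : ℝ) ∧
          r ^ (1 / 4 : ℝ) < (shortV B s ε p ℓ).card}.ncard : ℕ) : ℝ) ≤ T := by
      have : {p : E → Equiv.Perm (Fin N) |
        (2 * n + 1 : ℝ) * r ^ (1 / 8 : ℝ) < ncyc B s ε p ∨
        ∃ ℓ : ℕ, (ℓ : ℝ) ≤ A * r ^ (1 / 8 : ℝ) ∧
          r ^ (1 / 4 : ℝ) < (shortV B s ε p ℓ).card}.ncard ≤ T := by
        rw [← hΩ, ← Nat.card_eq_fintype_card]
        exact Set.ncard_le_card _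
      exact_mod_cast this
    refine h1.trans ?_
    have h2 : 1 ≤ (N₀ : ℝ) ^ (1 / 10 : ℝ) * r ^ (-(1 / 10) : ℝ) := by
      have h3 : r ^ (1 / 10 : ℝ) ≤ (N₀ : ℝ) ^ (1 / 10 : ℝ) := by
        refine Real.rpow_le_rpow hr0.le ?_ (by norm_num)
        rw [hr]
        exact_mod_cast hNN.le
      calc (1 : ℝ) = r ^ (1 / 10 : ℝ) * r ^ (-(1 / 10) : ℝ) := by
            rw [← Real.rpow_add hr0]; norm_num
        _ ≤ _ := mul_le_mul_of_nonneg_right h3 hp10.le
    have h4 : 1 ≤ (82 + 2 * n * A + (N₀ : ℝ) ^ (1 / 10 : ℝ)) * r ^ (-(1 / 10) : ℝ) := by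
      have : 0 ≤ (82 + 2 * n * A) * r ^ (-(1 / 10) : ℝ) := by positivity
      nlinarith
    nlinarith
  · -- large N
    push Not at hNN
    have hN0r : (N₀ : ℝ) ≤ r := by rw [hr]; exact_mod_cast hNN
    have hr256 : 256 ≤ r := hN₀1.trans hN0r
    have hrA : (2 * A) ^ 2 ≤ r := hN₀2.trans hN0r
    have h18 : 2 ≤ r ^ (1 / 8 : ℝ) := by
      calc (2 : ℝ) = (256 : ℝ) ^ (1 / 8 : ℝ) := by
            rw [show (256 : ℝ) = 2 ^ (8 : ℝ) by norm_num, ← Real.rpow_mul (by norm_num)]
            norm_num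
        _ ≤ _ := Real.rpow_le_rpow (by norm_num) hr256 (by norm_num)
    have h18p : 0 < r ^ (1 / 8 : ℝ) := by linarith
    have h78p : 0 < r ^ (7 / 8 : ℝ) := Real.rpow_pos_of_pos hr0 _
    have h78 : r ^ (7 / 8 : ℝ) * r ^ (1 / 8 : ℝ) = r := by
      rw [← Real.rpow_add hr0]; norm_num
    have h78' : 2 * r ^ (7 / 8 : ℝ) ≤ r := by
      calc 2 * r ^ (7 / 8 : ℝ) = r ^ (7 / 8 : ℝ) * 2 := by ring
        _ ≤ r ^ (7 / 8 : ℝ) * r ^ (1 / 8 : ℝ) := mul_le_mul_of_nonneg_left h18 h78p.le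
        _ = r := h78
    have hA78 : 2 * A ≤ r ^ (7 / 8 : ℝ) := by
      have e1 : 2 * A ≤ r ^ (1 / 2 : ℝ) := by
        rw [← Real.sqrt_eq_rpow]
        exact Real.le_sqrt_of_sq_le hrA
      exact e1.trans (Real.rpow_le_rpow_of_exponent_le hr1 (by norm_num))
    have hA18 : 2 * (A * r ^ (1 / 8 : ℝ)) ≤ r := by
      calc 2 * (A * r ^ (1 / 8 : ℝ)) = (2 * A) * r ^ (1 / 8 : ℝ) := by ring
        _ ≤ r ^ (7 / 8 : ℝ) * r ^ (1 / 8 : ℝ) := mul_le_mul_of_nonneg_right hA78 h18p.le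
        _ = r := h78
    have hNpos : 0 < N := hN
    obtain ⟨f, hf⟩ : ∃ f : (E → Equiv.Perm (Fin N)) → V × Fin N → ℕ,
        f = fun p x => (circ (lperm B s ε p) x).card := ⟨_, rfl⟩
    have hf1 : ∀ p x, 1 ≤ f p x := by
      intro p x
      rw [hf]
      exact circ_pos _ _
    have hfc : ∀ (x : V × Fin N) (k : ℕ), (univ.filter (fun p => f p x = k)).card * (N - k) ≤ T := by
      intro x k
      have h1 := hret B F s ε hs N x k
      rw [← hm, ← hT] at h1
      have h2 : {p : E → Equiv.Perm (Fin N) | (circ (lperm B s ε p) x).card = k}.ncard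
          = (univ.filter (fun p => f p x = k)).card := by
        rw [Set.ncard_eq_toFinset_card']
        congr 1
        ext p
        simp [hf]
      rw [h2] at h1
      exact h1
    have hcard : (Fintype.card (V × Fin N) : ℝ) = n * r := by
      rw [Fintype.card_prod, Fintype.card_fin, hr, hn]
      push_cast
      rfl
    -- the short cycles
    obtain ⟨L, hL⟩ : ∃ L : ℕ, L = ⌈r ^ (7 / 8 : ℝ)⌉₊ := ⟨_, rfl⟩
    have hLk : ∀ k < L, 2 * k ≤ N := by
      intro k hk
      rw [hL, Nat.lt_ceil] at hk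
      have : (2 * k : ℝ) ≤ N := by rw [← hr]; linarith
      exact_mod_cast this
    have hLN : L ≤ N + 1 := by
      by_contra hcon
      push Not at hcon
      have := hLk (N + 1) hcon
      omega
    have hX : ∑ p : E → Equiv.Perm (Fin N), ∑ x, (if f p x < L then (1 : ℝ) / (f p x : ℕ) else 0)
        ≤ 2 * n * T * (1 + Real.log r) := by
      rw [Finset.sum_comm]
      calc _ ≤ ∑ _x : V × Fin N, 2 / (N : ℝ) * T * (1 + Real.log r) := by
            refine Finset.sum_le_sum fun x _ => ?_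
            refine (sum_le (fun p => f p x) N L T hNpos hLk (fun p => hf1 p x) (hfc x)
              (fun k => (1 : ℝ) / k) (fun k => by positivity)).trans ?_
            refine mul_le_mul_of_nonneg_left ?_ (by positivity)
            rw [hr]
            exact harm L N hLN
        _ = n * r * (2 / (N : ℝ) * T * (1 + Real.log r)) := by
            rw [Finset.sum_const, nsmul_eq_mul, Finset.card_univ, hcard]
        _ = _ := by
            rw [← hr]
            field_simp
    have hlog0 : 0 ≤ Real.log r := Real.log_nonneg hr1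
    have hB1 := markov (fun p : E → Equiv.Perm (Fin N) =>
      ∑ x, (if f p x < L then (1 : ℝ) / (f p x : ℕ) else 0))
      (fun p => Finset.sum_nonneg fun x _ => by split_ifs <;> positivity)
      ((n + 1) * r ^ (1 / 8 : ℝ)) _ (by positivity) hX
    -- the vertices on short cycles
    obtain ⟨l, hl⟩ : ∃ l : ℕ, l = ⌊A * r ^ (1 / 8 : ℝ)⌋₊ := ⟨_, rfl⟩
    have hlA : (l : ℝ) ≤ A * r ^ (1 / 8 : ℝ) := by
      rw [hl]
      exact Nat.floor_le (by positivity)
    have hlk : ∀ k < l, 2 * k ≤ N := by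
      intro k hk
      have : (2 * k : ℝ) ≤ N := by
        rw [← hr]
        have : (k : ℝ) ≤ l := by exact_mod_cast hk.le
        linarith
      exact_mod_cast this
    have hY : ∑ p : E → Equiv.Perm (Fin N), ((shortV B s ε p l).card : ℝ)
        ≤ 2 * n * T * (A * r ^ (1 / 8 : ℝ)) := by
      have h1 : ∀ p : E → Equiv.Perm (Fin N), ((shortV B s ε p l).card : ℝ)
          = ∑ x, (if f p x < l then (1 : ℝ) else 0) := by
        intro p
        unfold shortV
        rw [Finset.card_filter, hf]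
        push_cast
        rfl
      simp only [h1]
      rw [Finset.sum_comm]
      calc _ ≤ ∑ _x : V × Fin N, 2 / (N : ℝ) * T * (A * r ^ (1 / 8 : ℝ)) := by
            refine Finset.sum_le_sum fun x _ => ?_
            refine (sum_le (fun p => f p x) N l T hNpos hlk (fun p => hf1 p x) (hfc x)
              (fun _ => (1 : ℝ)) (fun k => by positivity)).trans ?_
            refine mul_le_mul_of_nonneg_left ?_ (by positivity)
            rw [Finset.sum_const, nsmul_eq_mul, Nat.card_Ico, mul_one]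
            refine le_trans ?_ hlA
            exact_mod_cast Nat.sub_le _ _
        _ = n * r * (2 / (N : ℝ) * T * (A * r ^ (1 / 8 : ℝ))) := by
            rw [Finset.sum_const, nsmul_eq_mul, Finset.card_univ, hcard]
        _ = _ := by
            rw [← hr]
            field_simp
    have h14p : 0 < r ^ (1 / 4 : ℝ) := Real.rpow_pos_of_pos hr0 _
    have hB2 := markov (fun p : E → Equiv.Perm (Fin N) => ((shortV B s ε p l).card : ℝ))
      (fun p => Nat.cast_nonneg _) (r ^ (1 / 4 : ℝ)) _ h14p hY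
    -- the union
    have hsub : {p : E → Equiv.Perm (Fin N) |
        (2 * n + 1 : ℝ) * r ^ (1 / 8 : ℝ) < ncyc B s ε p ∨
        ∃ ℓ : ℕ, (ℓ : ℝ) ≤ A * r ^ (1 / 8 : ℝ) ∧
          r ^ (1 / 4 : ℝ) < (shortV B s ε p ℓ).card} ⊆
        {p | (n + 1) * r ^ (1 / 8 : ℝ) <
          ∑ x, (if f p x < L then (1 : ℝ) / (f p x : ℕ) else 0)} ∪
        {p | r ^ (1 / 4 : ℝ) < ((shortV B s ε p l).card : ℝ)} := by
      intro p hp
      rcases hp with hp | ⟨ℓ, hℓ, hp⟩
      · left
        by_contra hcon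
        have hcon' : ∑ x, (if f p x < L then (1 : ℝ) / (f p x : ℕ) else 0)
            ≤ (n + 1) * r ^ (1 / 8 : ℝ) := not_lt.1 hcon
        have h1 : (ncyc B s ε p : ℝ) ≤ ∑ x, (1 : ℝ) / (f p x : ℕ) := by
          rw [hf]
          exact image_le (lperm B s ε p)
        have h2 : ∑ x, (1 : ℝ) / (f p x : ℕ) ≤
            ∑ x, ((if f p x < L then (1 : ℝ) / (f p x : ℕ) else 0) + 1 / r ^ (7 / 8 : ℝ)) := by
          refine Finset.sum_le_sum fun x _ => ?_
          split_ifs with hx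
          · have : 0 < 1 / r ^ (7 / 8 : ℝ) := by positivity
            linarith
          · rw [zero_add]
            rw [hL, Nat.lt_ceil, not_lt] at hx
            exact one_div_le_one_div_of_le h78p hx
        have h3 : ∑ _x : V × Fin N, 1 / r ^ (7 / 8 : ℝ) = n * r ^ (1 / 8 : ℝ) := by
          rw [Finset.sum_const, nsmul_eq_mul, Finset.card_univ, hcard]
          rw [mul_one_div, div_eq_iff h78p.ne', mul_assoc, mul_comm (r ^ (1 / 8 : ℝ)), h78]
        rw [Finset.sum_add_distrib, h3] at h2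
        have h4 : (2 * n + 1 : ℝ) * r ^ (1 / 8 : ℝ)
            = (n + 1) * r ^ (1 / 8 : ℝ) + n * r ^ (1 / 8 : ℝ) := by ring
        linarith
      · right
        have h1 : ℓ ≤ l := by
          rw [hl]
          exact Nat.le_floor hℓ
        have h2 : shortV B s ε p ℓ ⊆ shortV B s ε p l := by
          intro x hx
          unfold shortV at hx ⊢
          rw [mem_filter] at hx ⊢
          exact ⟨mem_univ _, lt_of_lt_of_le hx.2 h1⟩
        have h3 : ((shortV B s ε p ℓ).card : ℝ) ≤ (shortV B s ε p l).card := by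
          exact_mod_cast Finset.card_le_card h2
        exact lt_of_lt_of_le hp h3
    have hcount := (Set.ncard_le_ncard hsub (Set.toFinite _)).trans (Set.ncard_union_le _ _)
    have hcount' := (Nat.cast_le (α := ℝ)).2 hcount
    rw [Nat.cast_add] at hcount'
    refine hcount'.trans ((add_le_add hB1 hB2).trans ?_)
    -- numbers
    have hm18 : r ^ (-(1 / 8) : ℝ) * r ^ (1 / 8 : ℝ) = 1 := by
      rw [← Real.rpow_add hr0]; norm_num
    have hm18p : 0 < r ^ (-(1 / 8) : ℝ) := Real.rpow_pos_of_pos hr0 _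
    have hlogr : 1 + Real.log r ≤ 41 * r ^ (1 / 40 : ℝ) := by
      have e1 := Real.log_le_rpow_div hr0.le (ε := 1 / 40) (by norm_num)
      have e2 : (1 : ℝ) ≤ r ^ (1 / 40 : ℝ) := Real.one_le_rpow hr1 (by norm_num)
      have e3 : r ^ (1 / 40 : ℝ) / (1 / 40) = 40 * r ^ (1 / 40 : ℝ) := by ring
      rw [e3] at e1
      linarith
    have h40 : r ^ (1 / 40 : ℝ) * r ^ (-(1 / 8) : ℝ) = r ^ (-(1 / 10) : ℝ) := by
      rw [← Real.rpow_add hr0]; norm_num
    have h810 : r ^ (-(1 / 8) : ℝ) ≤ r ^ (-(1 / 10) : ℝ) :=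
      Real.rpow_le_rpow_of_exponent_le hr1 (by norm_num)
    have t1 : 2 * n * T * (1 + Real.log r) / ((n + 1) * r ^ (1 / 8 : ℝ))
        ≤ 82 * r ^ (-(1 / 10) : ℝ) * T := by
      rw [div_le_iff₀ (by positivity)]
      have e1 : 82 * r ^ (-(1 / 10) : ℝ) * T * ((n + 1) * r ^ (1 / 8 : ℝ))
          = 2 * (n + 1) * T * (41 * r ^ (1 / 40 : ℝ)) * (r ^ (-(1 / 8) : ℝ) * r ^ (1 / 8 : ℝ)) := by
        rw [← h40]; ring
      rw [e1, hm18, mul_one]
      have e2 : 2 * n * T * (1 + Real.log r) ≤ 2 * (n + 1) * T * (1 + Real.log r) := by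
        have : 0 ≤ (T : ℝ) * (1 + Real.log r) := by positivity
        nlinarith
      refine e2.trans ?_
      exact mul_le_mul_of_nonneg_left hlogr (by positivity)
    have t2 : 2 * n * T * (A * r ^ (1 / 8 : ℝ)) / r ^ (1 / 4 : ℝ)
        ≤ 2 * n * A * r ^ (-(1 / 10) : ℝ) * T := by
      have e1 : r ^ (1 / 8 : ℝ) / r ^ (1 / 4 : ℝ) = r ^ (-(1 / 8) : ℝ) := by
        rw [← Real.rpow_sub hr0]; norm_num
      have e2 : 2 * n * T * (A * r ^ (1 / 8 : ℝ)) / r ^ (1 / 4 : ℝ)
          = 2 * n * A * T * (r ^ (1 / 8 : ℝ) / r ^ (1 / 4 : ℝ)) := by ring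
      rw [e2, e1]
      calc 2 * n * A * T * r ^ (-(1 / 8) : ℝ) ≤ 2 * n * A * T * r ^ (-(1 / 10) : ℝ) :=
            mul_le_mul_of_nonneg_left h810 (by positivity)
        _ = _ := by ring
    refine (add_le_add t1 t2).trans ?_
    have t3 : 0 ≤ (N₀ : ℝ) ^ (1 / 10 : ℝ) * r ^ (-(1 / 10) : ℝ) * T := by positivity
    nlinarith

end det

end Pool.Agent.N364.CD
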